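import Pool.Agent.Helper76.MengerFinal

set_option autoImplicit false

open Set Topology Metric
open Pool.Agent.Helper76.Menger

namespace Pool.Agent.Results.MP_0203cc_gt.MengerDisproof

lemma exotic {n : ℕ} (hn : 5 ≤ n) (hax : MengerAxioms n ind) :
    ∃ d : (X : Type) → [TopologicalSpace X] → EInt, MengerAxioms n d ∧
      (∀ (X : Type) [TopologicalSpace X], d X ≤ ind X) ∧
      ∃ (P : Type) (_ : TopologicalSpace P), CompactSpace P ∧ MemU n P ∧
        d P = ((1 : ℤ) : EInt) ∧ ind P = ((2 : ℤ) : EInt) := by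
  have hpc : IsPathConnected (sphere (0 : Fin 3 → ℝ) 1) := by
    refine isPathConnected_sphere ?_ 0 zero_le_one
    rw [← Module.finrank_eq_rank ℝ (Fin 3 → ℝ)]
    simp
  have h1 : Ext PP K12 := ext_prod
    (ext_PP_of_axioms (by omega) hax tgt_K1 K1_pathConnected fill3_K1)
    (ext_PP_of_axioms (by omega) hax tgt_sphere hpc (fill3_sphere (by simp)))
  have hP : MemU n PP := (sr_of_ext (ext_snd h1 tgt_K1.nonempty)).memU hn
  have h2 : ¬ IndLT 2 PP := fun h =>
    not_ext_PP (ext_of_indLT_two hax hP h tgt_sphere circle_pathConnected)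
  have h3 : ind PP = ((2 : ℤ) : EInt) :=
    le_antisymm ((ind_le_two_iff _).2 (indLT_three_of_ext hn hP h1)) (not_indLT_le h2)
  refine ⟨dd, dd_axioms hn hax, fun X _ => dd_le_ind X, PP, inferInstance, inferInstance, hP, ?_, h3⟩
  rw [dd_of_ext h1, h3]
  exact min_eq_right (WithBotTop.coe_le_coe.2 (by norm_num))

theorem result (n : ℕ) (hn : 5 ≤ n) :
    ¬ (MengerAxioms n ind ∧
      ∀ d : (X : Type) → [TopologicalSpace X] → EInt, MengerAxioms n d →
        ∀ (X : Type) [TopologicalSpace X], MemU n X → d X = ind X) ∧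
    (MengerAxioms n ind →
      ∃ d : (X : Type) → [TopologicalSpace X] → EInt, MengerAxioms n d ∧
        (∀ (X : Type) [TopologicalSpace X], d X ≤ ind X) ∧
        ∃ (P : Type) (_ : TopologicalSpace P), CompactSpace P ∧ MemU n P ∧
          d P = ((1 : ℤ) : EInt) ∧ ind P = ((2 : ℤ) : EInt)) :=
  ⟨menger_disproof hn, exotic hn⟩

end Pool.Agent.Results.MP_0203cc_gt.MengerDisproof
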